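import Pool.Agent.Work.MP_db9399_sl.Interface
import Pool.Agent.Work.MP_db9399_lt.Base

/-!
# MP_db9399, frame of exception (iii), block VSP (helper94): the vertex colours of one spot
-/

set_option autoImplicit false

namespace Pool.Agent.Work.MP_db9399_sl.helper94

open Finset Classical
open Pool.Agent.Work.MP_db9399_all (nb)
open Pool.Agent.Work.MP_db9399_nc (nn mem_nn mem_nb)
open Pool.Agent.Work.MP_db9399_sl

universe u

namespace VSP

/-- disjoint nonadjacent pairs `(v, f v)`, `v ∈ P`, inside `S` -/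
structure Prs {V : Type u} (G : SimpleGraph V) (S P : Finset V) (f : V → V) : Prop where
  sub : P ⊆ S
  fS : ∀ v ∈ P, f v ∈ S
  out : ∀ v ∈ P, f v ∉ P
  inj : Set.InjOn f (P : Set V)
  na : ∀ v ∈ P, ¬ G.Adj v (f v)

/-- many missing edges give many disjoint nonadjacent pairs -/
theorem exists_prs {V : Type u} [Fintype V] (G : SimpleGraph V) (S : Finset V) (x : ℕ) (hx1 : 1 ≤ x)
    (hx : ∀ v ∈ S, (nn G S v).card ≤ x) :
    ∀ p : ℕ, 4 * x * p ≤ ∑ v ∈ S, (nn G S v).card →
      ∃ (P : Finset V) (f : V → V), Prs G S P f ∧ P.card = p := by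
  intro p
  induction p with
  | zero => exact fun _ => ⟨∅, id, ⟨by simp, by simp, by simp, by simp, by simp⟩, rfl⟩
  | succ p ih =>
    intro h
    obtain ⟨P, f, hP, hc⟩ := ih (by nlinarith)
    obtain ⟨U, hU⟩ : ∃ U : Finset V, U = P ∪ P.image f := ⟨_, rfl⟩
    have hUS : U ⊆ S := by
      rw [hU]
      refine union_subset hP.sub ?_
      intro v hv
      obtain ⟨w, hw, rfl⟩ := mem_image.mp hv
      exact hP.fS w hw
    have hUc : U.card ≤ 2 * p := by
      rw [hU]
      have h1 := card_union_le P (P.image f)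
      have h2 : (P.image f).card ≤ P.card := card_image_le
      omega
    -- a nonadjacent pair outside `U`
    have hex : ∃ v ∈ S, ∃ w ∈ S, v ∉ U ∧ w ∉ U ∧ w ≠ v ∧ ¬ G.Adj v w := by
      by_contra hcon
      push Not at hcon
      have e1 : ∀ v ∈ S, v ∉ U → nn G S v = (nn G S v) ∩ U := by
        intro v hvS hv
        ext w
        rw [mem_inter]
        constructor
        · intro hw
          refine ⟨hw, ?_⟩
          by_contra hwU
          rw [mem_nn] at hw
          exact hw.2.2 (hcon v hvS w hw.1 hv hwU hw.2.1)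
        · exact fun hw => hw.1
      have e2 : ∑ v ∈ S, (nn G S v).card ≤ ∑ v ∈ U, (nn G S v).card +
          ∑ v ∈ S, ((nn G S v) ∩ U).card := by
        rw [← sum_filter_add_sum_filter_not S (fun v => v ∈ U)]
        apply Nat.add_le_add
        · exact sum_le_sum_of_subset (fun v hv => (mem_filter.mp hv).2)
        · calc ∑ v ∈ S.filter (fun v => ¬ v ∈ U), (nn G S v).card
              = ∑ v ∈ S.filter (fun v => ¬ v ∈ U), ((nn G S v) ∩ U).card := by
                apply sum_congr rfl
                intro v hv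
                rw [← e1 v (mem_filter.mp hv).1 (mem_filter.mp hv).2]
            _ ≤ _ := sum_le_sum_of_subset (filter_subset _ _)
      have e3 : ∑ v ∈ S, ((nn G S v) ∩ U).card ≤ ∑ v ∈ U, (nn G S v).card := by
        have h1 : ∀ v : V, ((nn G S v) ∩ U).card =
            ∑ w ∈ U, if w ∈ nn G S v then 1 else 0 := by
          intro v
          rw [inter_comm, ← filter_mem_eq_inter, card_filter]
        have h2 : ∀ w ∈ U, (∑ v ∈ S, if w ∈ nn G S v then 1 else 0) ≤ (nn G S w).card := by
          intro w hw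
          rw [← card_filter]
          apply card_le_card
          intro v hv
          rw [mem_filter, mem_nn] at hv
          rw [mem_nn]
          exact ⟨hv.1, fun h => hv.2.2.1 h.symm, fun h => hv.2.2.2 h.symm⟩
        simp only [h1]
        rw [sum_comm]
        exact sum_le_sum h2
      have e4 : ∑ v ∈ U, (nn G S v).card ≤ 2 * p * x := by
        calc ∑ v ∈ U, (nn G S v).card ≤ ∑ _v ∈ U, x := sum_le_sum fun v hv => hx v (hUS hv)
          _ = U.card * x := by rw [sum_const, smul_eq_mul]
          _ ≤ _ := Nat.mul_le_mul_right _ hUc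
      nlinarith
    obtain ⟨v, hvS, w, hwS, hv, hw, hwv, hna⟩ := hex
    rw [hU] at hv hw
    have hvP : v ∉ P := fun h => hv (mem_union_left _ h)
    have hwP : w ∉ P := fun h => hw (mem_union_left _ h)
    have hvf : ∀ z ∈ P, f z ≠ v := fun z hz h => hv (mem_union_right _ (h ▸ mem_image_of_mem f hz))
    have hwf : ∀ z ∈ P, f z ≠ w := fun z hz h => hw (mem_union_right _ (h ▸ mem_image_of_mem f hz))
    have hne : ∀ z ∈ P, z ≠ v := fun z hz h => hvP (h ▸ hz)
    refine ⟨insert v P, Function.update f v w, ⟨?_, ?_, ?_, ?_, ?_⟩, ?_⟩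
    · exact insert_subset hvS hP.sub
    · intro z hz
      rcases mem_insert.mp hz with rfl | hz
      · rwa [Function.update_self]
      · rw [Function.update_of_ne (hne z hz)]
        exact hP.fS z hz
    · intro z hz
      rcases mem_insert.mp hz with rfl | hz
      · rw [Function.update_self, mem_insert]
        rintro (h | h)
        · exact hwv h
        · exact hwP h
      · rw [Function.update_of_ne (hne z hz), mem_insert]
        rintro (h | h)
        · exact hvf z hz h
        · exact hP.out z hz h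
    · intro z hz z' hz' h
      rw [mem_coe, mem_insert] at hz hz'
      rcases hz with hz | hz
      · rcases hz' with hz' | hz'
        · rw [hz, hz']
        · rw [hz, Function.update_self, Function.update_of_ne (hne z' hz')] at h
          exact absurd h.symm (hwf z' hz')
      · rcases hz' with hz' | hz'
        · rw [hz', Function.update_self, Function.update_of_ne (hne z hz)] at h
          exact absurd h (hwf z hz)
        · rw [Function.update_of_ne (hne z hz), Function.update_of_ne (hne z' hz')] at h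
          exact hP.inj hz hz' h
    · intro z hz
      rcases mem_insert.mp hz with rfl | hz
      · rwa [Function.update_self]
      · rw [Function.update_of_ne (hne z hz)]
        exact hP.na z hz
    · rw [card_insert_of_notMem hvP, hc]

/-- Hall's theorem with a few heavy colours -/
theorem hallH {α : Type u} {β : Type} [Nonempty β] (N : Finset α) (K Hv : Finset β)
    (ok : α → β → Prop) (a : ℕ)
    (hc : N.card = K.card) (h1 : ∀ v ∈ N, (K.filter (fun b => ¬ ok v b)).card ≤ a)
    (h2 : ∀ b ∈ K, b ∉ Hv → a ≤ (N.filter (fun v => ok v b)).card)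
    (h3 : ∀ b ∈ K, b ∈ Hv → Hv.card ≤ (N.filter (fun v => ok v b)).card) :
    ∃ g : α → β, (∀ v ∈ N, g v ∈ K ∧ ok v (g v)) ∧ Set.InjOn g (N : Set α) := by
  have hall : ∀ S : Finset {b // b ∈ K},
      S.card ≤ (S.biUnion (fun b => N.filter (fun v => ok v b.val))).card := by
    intro S
    have hSK : (S.image (fun b : {b // b ∈ K} => b.val)).card = S.card :=
      card_image_of_injective _ Subtype.val_injective
    have hsubK : S.image (fun b : {b // b ∈ K} => b.val) ⊆ K := by
      intro b hb
      obtain ⟨b', _, rfl⟩ := mem_image.mp hb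
      exact b'.2
    by_cases hH : ∀ b ∈ S, (b : {b // b ∈ K}).val ∈ Hv
    · rcases S.eq_empty_or_nonempty with hS | ⟨b0, hb0⟩
      · subst hS; simp
      · have e1 : (N.filter (fun v => ok v b0.val)).card ≤
            (S.biUnion (fun b => N.filter (fun v => ok v b.val))).card :=
          card_le_card (subset_biUnion_of_mem
            (fun b : {b // b ∈ K} => N.filter (fun v => ok v b.val)) hb0)
        have e2 := h3 b0.val b0.2 (hH b0 hb0)
        have e3 : S.card ≤ Hv.card := by
          rw [← hSK]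
          apply card_le_card
          intro b hb
          obtain ⟨b', hb', rfl⟩ := mem_image.mp hb
          exact hH b' hb'
        omega
    · push Not at hH
      obtain ⟨b0, hb0, hb0H⟩ := hH
      by_cases hbig : S.card ≤ a
      · have e1 : (N.filter (fun v => ok v b0.val)).card ≤
            (S.biUnion (fun b => N.filter (fun v => ok v b.val))).card :=
          card_le_card (subset_biUnion_of_mem
            (fun b : {b // b ∈ K} => N.filter (fun v => ok v b.val)) hb0)
        have e2 := h2 b0.val b0.2 hb0H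
        omega
      · have e1 : N ⊆ S.biUnion (fun b => N.filter (fun v => ok v b.val)) := by
          intro v hv
          by_contra hcon
          have e2 : S.image (fun b : {b // b ∈ K} => b.val) ⊆ K.filter (fun b => ¬ ok v b) := by
            intro b hb
            obtain ⟨b', hb', rfl⟩ := mem_image.mp hb
            rw [mem_filter]
            refine ⟨b'.2, fun h => hcon ?_⟩
            rw [mem_biUnion]
            exact ⟨b', hb', mem_filter.mpr ⟨hv, h⟩⟩
          have e3 := card_le_card e2
          rw [hSK] at e3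
          have e4 := h1 v hv
          omega
        have e2 := card_le_card e1
        have e3 : S.card ≤ K.card := by
          rw [← hSK]
          exact card_le_card hsubK
        omega
  obtain ⟨φ, hφ1, hφ2⟩ := (Finset.all_card_le_biUnion_card_iff_exists_injective _).mp hall
  have himg : (univ : Finset {b // b ∈ K}).image φ = N := by
    apply eq_of_subset_of_card_le
    · intro v hv
      obtain ⟨b, _, rfl⟩ := mem_image.mp hv
      exact (mem_filter.mp (hφ2 b)).1
    · rw [card_image_of_injective _ hφ1, card_univ, Fintype.card_coe, hc]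
  have hsur : ∀ v ∈ N, ∃ b : {b // b ∈ K}, φ b = v := by
    intro v hv
    rw [← himg] at hv
    obtain ⟨b, _, hb⟩ := mem_image.mp hv
    exact ⟨b, hb⟩
  refine ⟨fun v => if h : v ∈ N then ((hsur v h).choose).val else Classical.arbitrary β, ?_, ?_⟩
  · intro v hv
    simp only [dif_pos hv]
    refine ⟨((hsur v hv).choose).2, ?_⟩
    have h4 := (mem_filter.mp (hφ2 ((hsur v hv).choose))).2
    rwa [(hsur v hv).choose_spec] at h4
  · intro v hv w hw h
    rw [mem_coe] at hv hw
    simp only [dif_pos hv, dif_pos hw] at h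
    have h4 := Subtype.ext h
    rw [← (hsur v hv).choose_spec, ← (hsur w hw).choose_spec, h4]

/-- the vertices of `S` get the colours of `K`: the pairs of `P` one colour each, all others
different colours; `B v` is forbidden at `v`, `D v` should be avoided -/
theorem vcore {V : Type u} {β : Type} [Nonempty β] [DecidableEq β] (G : SimpleGraph V) (S : Finset V)
    (K Hv : Finset β) (B D : V → Finset β) (P : Finset V) (f : V → V) (a : ℕ)
    (hP : Prs G S P f) (hc : S.card = K.card + P.card)
    (h1 : ∀ v ∈ S, (B v ∪ D v).card ≤ a) (h1' : ∀ v ∈ S, 2 * (B v).card ≤ a)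
    (h2 : ∀ b ∈ K, b ∉ Hv → a + 2 * P.card ≤ (S.filter (fun v => b ∉ B v ∪ D v)).card)
    (h3 : ∀ b ∈ K, b ∈ Hv → Hv.card + 2 * P.card ≤ (S.filter (fun v => b ∉ B v)).card) :
    ∃ c : V → β, (∀ v ∈ S, c v ∈ K ∧ c v ∉ B v) ∧
      (∀ v ∈ S, ∀ w ∈ S, G.Adj v w → c v ≠ c w) ∧
      (∀ b, (S.filter (fun v => c v = b)).card ≤ 2) ∧
      (∀ b ∈ K, b ∉ P.image c → (S.filter (fun v => c v = b)).card = 1) ∧
      (S.filter (fun v => c v ∈ D v)).card ≤ 2 * P.card + Hv.card := by
  obtain ⟨I, hI⟩ : ∃ I : Finset V, I = S \ P := ⟨_, rfl⟩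
  have hIc : I.card + P.card = S.card := by
    rw [hI]
    exact card_sdiff_add_card_eq_card hP.sub
  obtain ⟨J, hJ⟩ : ∃ J : Finset V, J = P.image f := ⟨_, rfl⟩
  obtain ⟨pr, hpr⟩ : ∃ pr : V → Finset β, ∀ v, pr v = (P.filter (fun w => f w = v)).biUnion B :=
    ⟨_, fun _ => rfl⟩
  have hpr1 : ∀ v, (P.filter (fun w => f w = v)).card ≤ 1 := by
    intro v
    rw [card_le_one]
    intro w hw w' hw'
    rw [mem_filter] at hw hw'
    exact hP.inj hw.1 hw'.1 (hw.2.trans hw'.2.symm)
  have hprm : ∀ w ∈ P, ∀ b ∈ B w, b ∈ pr (f w) := by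
    intro w hw b hb
    rw [hpr, mem_biUnion]
    exact ⟨w, mem_filter.mpr ⟨hw, rfl⟩, hb⟩
  have hprJ : ∀ v b, b ∈ pr v → v ∈ J := by
    intro v b hb
    rw [hpr, mem_biUnion] at hb
    obtain ⟨w, hw, _⟩ := hb
    rw [mem_filter] at hw
    rw [hJ]
    exact mem_image.mpr ⟨w, hw.1, hw.2⟩
  have hprc : ∀ v, 2 * (pr v).card ≤ a := by
    intro v
    rw [hpr]
    rcases (P.filter (fun w => f w = v)).eq_empty_or_nonempty with h | ⟨w, hw⟩
    · rw [h, biUnion_empty, card_empty]; omega
    · have h4 : P.filter (fun w => f w = v) = {w} := by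
        apply (eq_of_subset_of_card_le _ _).symm
        · intro z hz
          rwa [mem_singleton.mp hz]
        · rw [card_singleton]; exact hpr1 v
      rw [h4, singleton_biUnion]
      exact h1' w (hP.sub (mem_filter.mp hw).1)
  obtain ⟨ok, hok⟩ : ∃ ok : V → β → Prop, ∀ v b, ok v b ↔ (b ∉ B v ∧ b ∉ pr v ∧
      (b ∈ D v → v ∈ J ∨ b ∈ Hv)) := ⟨_, fun _ _ => Iff.rfl⟩
  have hJc : (P ∪ J).card ≤ 2 * P.card := by
    have h4 := card_union_le P J
    have h5 : J.card ≤ P.card := by rw [hJ]; exact card_image_le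
    omega
  obtain ⟨g, hg1, hg2⟩ := hallH I K Hv ok a (by omega)
    (by
      intro v hv
      have hvS : v ∈ S := by rw [hI] at hv; exact (mem_sdiff.mp hv).1
      by_cases hvJ : v ∈ J
      · have h4 : K.filter (fun b => ¬ ok v b) ⊆ B v ∪ pr v := by
          intro b hb
          have h5 := (mem_filter.mp hb).2
          rw [hok] at h5
          rw [mem_union]
          by_contra h6
          rw [not_or] at h6
          exact h5 ⟨h6.1, h6.2, fun _ => Or.inl hvJ⟩
        have h5 := (card_le_card h4).trans (card_union_le _ _)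
        have h6 := h1' v hvS
        have h7 := hprc v
        omega
      · have h4 : K.filter (fun b => ¬ ok v b) ⊆ B v ∪ D v := by
          intro b hb
          have h5 := (mem_filter.mp hb).2
          rw [hok] at h5
          rw [mem_union]
          by_contra h6
          rw [not_or] at h6
          exact h5 ⟨h6.1, fun h => hvJ (hprJ v b h), fun h => absurd h h6.2⟩
        exact (card_le_card h4).trans (h1 v hvS))
    (by
      intro b hb hbH
      have h4 : S.filter (fun v => b ∉ B v ∪ D v) ⊆ I.filter (fun v => ok v b) ∪ (P ∪ J) := by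
        intro v hv
        rw [mem_filter, mem_union, not_or] at hv
        rw [mem_union]
        by_cases h5 : v ∈ P ∪ J
        · exact Or.inr h5
        · left
          rw [mem_union, not_or] at h5
          rw [mem_filter, hok, hI, mem_sdiff]
          exact ⟨⟨hv.1, h5.1⟩, hv.2.1, fun h => h5.2 (hprJ v b h), fun h => absurd h hv.2.2⟩
      have h5 := (card_le_card h4).trans (card_union_le _ _)
      have h6 := h2 b hb hbH
      omega)
    (by
      intro b hb hbH
      have h4 : S.filter (fun v => b ∉ B v) ⊆ I.filter (fun v => ok v b) ∪ (P ∪ J) := by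
        intro v hv
        rw [mem_filter] at hv
        rw [mem_union]
        by_cases h5 : v ∈ P ∪ J
        · exact Or.inr h5
        · left
          rw [mem_union, not_or] at h5
          rw [mem_filter, hok, hI, mem_sdiff]
          exact ⟨⟨hv.1, h5.1⟩, hv.2, fun h => h5.2 (hprJ v b h), fun _ => Or.inr hbH⟩
      have h5 := (card_le_card h4).trans (card_union_le _ _)
      have h6 := h3 b hb hbH
      omega)
  have hfI : ∀ v ∈ P, f v ∈ I := fun v hv => by
    rw [hI]; exact mem_sdiff.mpr ⟨hP.fS v hv, hP.out v hv⟩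
  obtain ⟨c, hcdef⟩ : ∃ c : V → β, ∀ v, c v = if v ∈ P then g (f v) else g v :=
    ⟨_, fun _ => rfl⟩
  have hcP : ∀ v ∈ P, c v = g (f v) := fun v hv => by rw [hcdef, if_pos hv]
  have hcI : ∀ v, v ∉ P → c v = g v := fun v hv => by rw [hcdef, if_neg hv]
  have hvI : ∀ v ∈ S, v ∉ P → v ∈ I := fun v hvS hv => by
    rw [hI]; exact mem_sdiff.mpr ⟨hvS, hv⟩
  have hcK : ∀ v ∈ S, c v ∈ K := by
    intro v hvS
    by_cases hv : v ∈ P
    · rw [hcP v hv]; exact (hg1 _ (hfI v hv)).1
    · rw [hcI v hv]; exact (hg1 _ (hvI v hvS hv)).1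
  have hcB : ∀ v ∈ S, c v ∉ B v := by
    intro v hvS
    by_cases hv : v ∈ P
    · rw [hcP v hv]
      intro h
      have h4 := (hg1 _ (hfI v hv)).2
      rw [hok] at h4
      exact h4.2.1 (hprm v hv _ h)
    · rw [hcI v hv]
      have h4 := (hg1 _ (hvI v hvS hv)).2
      rw [hok] at h4
      exact h4.1
  -- every colour of `K` is the colour of exactly one item
  have hgimg : I.image g = K := by
    apply eq_of_subset_of_card_le
    · intro b hb
      obtain ⟨v, hv, rfl⟩ := mem_image.mp hb
      exact (hg1 v hv).1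
    · rw [card_image_of_injOn hg2]
      omega
  refine ⟨c, fun v hv => ⟨hcK v hv, hcB v hv⟩, ?_, ?_, ?_, ?_⟩
  · intro v hvS w hwS hvw h
    by_cases hv : v ∈ P <;> by_cases hw : w ∈ P
    · rw [hcP v hv, hcP w hw] at h
      have h4 := hg2 (hfI v hv) (hfI w hw) h
      exact hvw.ne (hP.inj hv hw h4)
    · rw [hcP v hv, hcI w hw] at h
      have h4 := hg2 (hfI v hv) (hvI w hwS hw) h
      exact hP.na v hv (h4 ▸ hvw)
    · rw [hcI v hv, hcP w hw] at h
      have h4 := hg2 (hvI v hvS hv) (hfI w hw) h
      exact hP.na w hw (h4 ▸ hvw.symm)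
    · rw [hcI v hv, hcI w hw] at h
      exact hvw.ne (hg2 (hvI v hvS hv) (hvI w hwS hw) h)
  · intro b
    have h4 : S.filter (fun v => c v = b) ⊆
        (I.filter (fun v => g v = b)) ∪ (P.filter (fun v => g (f v) = b)) := by
      intro v hv
      rw [mem_filter] at hv
      rw [mem_union, mem_filter, mem_filter]
      by_cases h5 : v ∈ P
      · right; exact ⟨h5, (hcP v h5) ▸ hv.2⟩
      · left; exact ⟨hvI v hv.1 h5, (hcI v h5) ▸ hv.2⟩
    have h5 : (I.filter (fun v => g v = b)).card ≤ 1 := by
      rw [card_le_one]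
      intro v hv w hw
      rw [mem_filter] at hv hw
      exact hg2 hv.1 hw.1 (hv.2.trans hw.2.symm)
    have h6 : (P.filter (fun v => g (f v) = b)).card ≤ 1 := by
      rw [card_le_one]
      intro v hv w hw
      rw [mem_filter] at hv hw
      exact hP.inj hv.1 hw.1 (hg2 (hfI v hv.1) (hfI w hw.1) (hv.2.trans hw.2.symm))
    have h7 := (card_le_card h4).trans (card_union_le _ _)
    omega
  · intro b hb hbP
    rw [← hgimg] at hb
    obtain ⟨v, hv, hvb⟩ := mem_image.mp hb
    have hvS : v ∈ S ∧ v ∉ P := by rw [hI] at hv; exact mem_sdiff.mp hv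
    rw [card_eq_one]
    refine ⟨v, ?_⟩
    ext w
    rw [mem_filter, mem_singleton]
    constructor
    · rintro ⟨hwS, h⟩
      by_cases hw : w ∈ P
      · exact absurd (mem_image.mpr ⟨w, hw, h⟩) hbP
      · rw [hcI w hw] at h
        exact hg2 (hvI w hwS hw) hv (h.trans hvb.symm)
    · rintro rfl
      exact ⟨hvS.1, by rw [hcI w hvS.2]; exact hvb⟩
  · have h4 : S.filter (fun v => c v ∈ D v) ⊆ (P ∪ J) ∪ (I.filter (fun v => g v ∈ Hv)) := by
      intro v hv
      rw [mem_filter] at hv
      rw [mem_union]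
      by_cases h5 : v ∈ P ∪ J
      · exact Or.inl h5
      · right
        rw [mem_union, not_or] at h5
        have h6 := hvI v hv.1 h5.1
        have h7 := (hg1 v h6).2
        rw [hok] at h7
        rw [hcI v h5.1] at hv
        rw [mem_filter]
        exact ⟨h6, (h7.2.2 hv.2).resolve_left h5.2⟩
    have h5 : (I.filter (fun v => g v ∈ Hv)).card ≤ Hv.card := by
      apply card_le_card_of_injOn g
      · intro v hv
        exact (mem_filter.mp hv).2
      · intro v hv w hw h
        rw [mem_coe, mem_filter] at hv hw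
        exact hg2 hv.1 hw.1 h
    have h6 := (card_le_card h4).trans (card_union_le _ _)
    omega

/-- the three cases: the pairs and the colours which stay unused -/
theorem cases {V : Type u} [Fintype V] {k : ℕ} {G : SimpleGraph V} {d x : ℕ} {Y : Finset V}
    {K0 : Finset (Fin k)} {E A F0 : V → Finset (Fin k)} {W : Finset V} {cw : Finset (Fin k)}
    {p : V → Fin 3} {C : Fin 3 → Finset (Fin k)} {Z : Finset V}
    (h : VSH G d x Y K0 E A F0 W cw p C Z) (V1 : Finset V) (hV1 : V1 = Y \ W)
    (Hv : Finset (Fin k)) (hHv : Hv = (K0 \ cw).filter (fun b =>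
      Y.card < 4 * (V1.filter (fun v => b ∈ A v)).card)) :
    ∃ (P : Finset V) (f : V → V) (Hu : Finset (Fin k)), Prs G V1 P f ∧ Hu ⊆ Hv ∧
      Hu.card + Y.card + cw.card ≤ d + 2 + P.card + W.card ∧
      (Y.card = d → Hu.card + 1 + Y.card + cw.card ≤ d + 2 + P.card + W.card) ∧
      2 * P.card + Hv.card ≤ 19 * x ∧
      ∀ b ∈ Hv, b ∉ Hu → Hv.card + 2 * P.card ≤
        (V1.filter (fun v => b ∉ E v ∪ A v)).card := by
  have hx1 := h.x1
  have hxd : 1000000000000000 * x ≤ d := by simpa using h.xd
  have hbig := h.big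
  have hupp := h.upp
  have hW2 := h.W2
  have hcwc := h.cwc
  have hV1c : V1.card + W.card = Y.card := by
    rw [hV1]; exact card_sdiff_add_card_eq_card h.WY
  have hm : ∀ v, v ∈ V1 ↔ v ∈ Y ∧ v ∉ W := fun v => by rw [hV1, mem_sdiff]
  obtain ⟨m, hmd⟩ : ∃ m, m = Y.card := ⟨_, rfl⟩
  rw [← hmd] at hbig hupp hV1c hHv ⊢
  obtain ⟨Eb, hEb⟩ : ∃ Eb, Eb = ∑ v ∈ V1, (E v).card := ⟨_, rfl⟩
  obtain ⟨S1, hS1⟩ : ∃ S1, S1 = ∑ v ∈ V1, (nn G V1 v).card := ⟨_, rfl⟩
  have hEbx : Eb ≤ V1.card * x := by
    rw [hEb, ← smul_eq_mul]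
    exact sum_le_card_nsmul _ _ _ fun v hv => h.Ex v ((hm v).mp hv).1 ((hm v).mp hv).2
  -- heavy colours
  have hsumA : ∀ H : Finset (Fin k), ∑ b ∈ H, (V1.filter (fun v => b ∈ A v)).card ≤ Eb := by
    intro H
    have e1 : ∀ b, (V1.filter (fun v => b ∈ A v)).card = ∑ v ∈ V1, if b ∈ A v then 1 else 0 :=
      fun b => card_filter _ _
    simp only [e1]
    rw [sum_comm, hEb]
    refine sum_le_sum fun v hv => ?_
    rw [← card_filter]
    refine le_trans (card_le_card (t := A v) fun b hb => (mem_filter.mp hb).2) ?_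
    exact h.AE v ((hm v).mp hv).1 ((hm v).mp hv).2
  have hheavy : Hv.card * (m + 1) ≤ 4 * Eb := by
    have e1 : Hv.card * (m + 1) ≤ ∑ b ∈ Hv, 4 * (V1.filter (fun v => b ∈ A v)).card := by
      rw [← smul_eq_mul]
      refine card_nsmul_le_sum _ _ _ fun b hb => ?_
      rw [hHv, mem_filter] at hb
      exact hb.2
    rw [← mul_sum] at e1
    have e2 := hsumA Hv
    omega
  have hHvx : Hv.card ≤ 4 * x := by
    by_contra hcon
    push Not at hcon
    have e1 : (4 * x + 1) * (m + 1) ≤ Hv.card * (m + 1) := Nat.mul_le_mul_right _ hcon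
    have e2 : V1.card * x ≤ m * x := Nat.mul_le_mul_right _ (by omega)
    nlinarith
  -- missing edges
  have hnn : ∀ v ∈ V1, (nn G V1 v).card ≤ x := by
    intro v hv
    refine le_trans (card_le_card ?_) (h.inn v ((hm v).mp hv).1)
    intro w hw
    rw [mem_nn] at hw
    rw [mem_sdiff, mem_nb]
    exact ⟨((hm w).mp hw.1).1, hw.2.2⟩
  have hone : ∀ v ∈ V1, m + (E v).card ≤ (nn G V1 v).card + (W \ nb G v).card + (1 + d) := by
    intro v hv
    have hv' := (hm v).mp hv
    have e1 : Y ⊆ (nn G V1 v ∪ (W \ nb G v)) ∪ ({v} ∪ nb G v) := by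
      intro w hw
      simp only [mem_union, mem_nn, mem_sdiff, mem_singleton, mem_nb, hm]
      by_cases h1 : G.Adj v w
      · exact Or.inr (Or.inr h1)
      · by_cases h2 : w = v
        · exact Or.inr (Or.inl h2)
        · left
          by_cases h3 : w ∈ W
          · exact Or.inr ⟨h3, h1⟩
          · exact Or.inl ⟨⟨hw, h3⟩, h2, h1⟩
    have e2 := (card_le_card e1).trans (card_union_le _ _)
    have e3 := card_union_le (nn G V1 v) (W \ nb G v)
    have e4 := card_union_le {v} (nb G v)
    have e5 := h.deg v hv'.1 hv'.2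
    rw [card_singleton] at e4
    omega
  have hWs : ∑ v ∈ V1, (W \ nb G v).card ≤ 2 * x := by
    have e1 : ∀ v ∈ V1, (W \ nb G v).card = ∑ u ∈ W, if ¬ G.Adj v u then 1 else 0 := by
      intro v _
      rw [← card_filter]
      congr 1
      ext u
      rw [mem_sdiff, mem_filter, mem_nb]
    rw [sum_congr rfl e1, sum_comm]
    calc ∑ u ∈ W, ∑ v ∈ V1, (if ¬ G.Adj v u then 1 else 0) ≤ ∑ _u ∈ W, x := by
          refine sum_le_sum fun u hu => ?_
          rw [← card_filter]
          refine le_trans (card_le_card ?_) (h.inn u (h.WY hu))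
          intro v hv
          rw [mem_filter] at hv
          rw [mem_sdiff, mem_nb]
          exact ⟨((hm v).mp hv.1).1, fun h' => hv.2 h'.symm⟩
      _ = W.card * x := by rw [sum_const, smul_eq_mul]
      _ ≤ 2 * x := Nat.mul_le_mul_right _ hW2
  have hcnt : V1.card * m + Eb ≤ S1 + 2 * x + V1.card * (1 + d) := by
    have e1 : ∑ v ∈ V1, (m + (E v).card) ≤
        ∑ v ∈ V1, ((nn G V1 v).card + (W \ nb G v).card + (1 + d)) :=
      sum_le_sum hone
    rw [sum_add_distrib, sum_add_distrib, sum_add_distrib, sum_const, sum_const, smul_eq_mul,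
      smul_eq_mul, ← hEb, ← hS1] at e1
    omega
  have hS1x : S1 ≤ V1.card * x := by
    rw [hS1, ← smul_eq_mul]
    exact sum_le_card_nsmul _ _ _ hnn
  -- `4 x |Hv|` is small compared with `Eb`
  have h4x : 1000 * (4 * x * Hv.card) ≤ Eb := by
    have e1 : 1000000 * x * Hv.card ≤ Hv.card * (m + 1) := by
      rw [mul_comm _ Hv.card]
      exact Nat.mul_le_mul_left _ (by omega)
    nlinarith
  have hEbpos : 1 ≤ Hv.card → m + 1 ≤ 4 * Eb := by
    intro h1
    have : 1 * (m + 1) ≤ Hv.card * (m + 1) := Nat.mul_le_mul_right _ h1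
    omega
  by_cases hA : d + 1 ≤ m
  · -- case A
    obtain ⟨q, hq⟩ : ∃ q, q = Hv.card + (m - d - 2) := ⟨_, rfl⟩
    have hqS : 4 * x * q ≤ S1 := by
      rcases Nat.eq_zero_or_pos q with h0 | h0
      · rw [h0]; omega
      obtain ⟨t, ht⟩ : ∃ t, m = d + 1 + t := ⟨m - d - 1, by omega⟩
      have e1 : Eb + V1.card * t ≤ S1 + 2 * x := by
        rw [ht] at hcnt
        nlinarith
      have e2 : m - d - 2 = t - 1 := by omega
      rw [e2] at hq
      have e3 : 4 * x * q ≤ 4 * x * Hv.card + 4 * x * t := by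
        rw [← mul_add]
        exact Nat.mul_le_mul_left _ (by omega)
      rcases Nat.eq_zero_or_pos t with ht0 | ht0
      · have e4 : 1 ≤ Hv.card := by omega
        have e5 := hEbpos e4
        rw [ht0] at e1 e3
        omega
      · have e4 : 1000 * x * t ≤ V1.card * t := Nat.mul_le_mul_right _ (by omega)
        have e5 : x * 1 ≤ x * t := Nat.mul_le_mul_left _ ht0
        nlinarith
    obtain ⟨P, f, hP, hPc⟩ := exists_prs G V1 x hx1 hnn q (by rw [← hS1]; exact hqS)
    refine ⟨P, f, Hv, hP, Subset.refl _, by omega, by omega, by omega, ?_⟩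
    intro b hb hb'
    exact absurd hb hb'
  · have hmd' : m = d := by omega
    by_cases hB : m ≤ 8 * S1
    · -- case B
      have hqS : 4 * x * Hv.card ≤ S1 := by
        have e1 : Eb ≤ S1 + 2 * x + V1.card := by
          rw [hmd'] at hcnt
          nlinarith
        omega
      obtain ⟨P, f, hP, hPc⟩ := exists_prs G V1 x hx1 hnn Hv.card (by rw [← hS1]; exact hqS)
      refine ⟨P, f, Hv, hP, Subset.refl _, by omega, by omega, by omega, ?_⟩
      intro b hb hb'
      exact absurd hb hb'
    · -- case C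
      have e1 : 8 * Eb ≤ 9 * m + 16 * x := by
        have e1 : Eb ≤ S1 + 2 * x + V1.card := by
          rw [hmd'] at hcnt
          nlinarith
        omega
      have e2 : Hv.card ≤ 4 := by
        by_contra hcon
        push Not at hcon
        have e3 : 5 * (m + 1) ≤ Hv.card * (m + 1) := Nat.mul_le_mul_right _ hcon
        omega
      obtain ⟨Hu, hHu⟩ : ∃ Hu : Finset (Fin k), Hu = Hv.filter (fun b =>
        (V1.filter (fun v => b ∉ E v ∪ A v)).card < Hv.card) := ⟨_, rfl⟩
      have hHu1 : Hu.card ≤ 1 := by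
        rw [card_le_one]
        by_contra hcon
        push Not at hcon
        obtain ⟨b, hb, b', hb', hne⟩ := hcon
        have key : ∀ b ∈ Hu, m ≤ (V1.filter (fun v => b ∈ A v)).card + 2 * x + 6 := by
          intro b hb
          rw [hHu, mem_filter] at hb
          have e3 : V1 ⊆ ((V1.filter (fun v => b ∉ E v ∪ A v)) ∪
              (V1.filter (fun v => b ∈ A v))) ∪
              ((Y.filter (fun v => v ∉ Z ∧ b ∈ E v)) ∪ (Y ∩ Z)) := by
            intro v hv
            have hvY := ((hm v).mp hv).1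
            simp only [mem_union, mem_filter, mem_inter, not_or]
            by_cases h1 : b ∈ A v
            · exact Or.inl (Or.inr ⟨hv, h1⟩)
            · by_cases h2 : b ∈ E v
              · by_cases h3 : v ∈ Z
                · exact Or.inr (Or.inr ⟨hvY, h3⟩)
                · exact Or.inr (Or.inl ⟨hvY, h3, h2⟩)
              · exact Or.inl (Or.inl ⟨hv, h2, h1⟩)
          have e4 := (card_le_card e3).trans (card_union_le _ _)
          have e5 := card_union_le (V1.filter (fun v => b ∉ E v ∪ A v))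
            (V1.filter (fun v => b ∈ A v))
          have e6 := card_union_le (Y.filter (fun v => v ∉ Z ∧ b ∈ E v)) (Y ∩ Z)
          have e7 := h.ld b
          have e8 := h.ZY
          have e9 := hb.2
          omega
        have e3 := hsumA {b, b'}
        rw [sum_pair hne] at e3
        have e4 := key b hb
        have e5 := key b' hb'
        omega
      have hPr : Prs G V1 ∅ id := ⟨by simp, by simp, by simp, by simp, by simp⟩
      refine ⟨∅, id, Hu, hPr, ?_, ?_, ?_, ?_, ?_⟩
      · rw [hHu]; exact filter_subset _ _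
      · rw [card_empty]; omega
      · intro _; rw [card_empty]; omega
      · rw [card_empty]; omega
      · intro b hb hb'
        rw [hHu, mem_filter] at hb'
        rw [card_empty]
        have : ¬ (V1.filter (fun v => b ∉ E v ∪ A v)).card < Hv.card := fun h' => hb' ⟨hb, h'⟩
        omega

end VSP

open VSP

/-- **VSP**: the vertex colours of one spot with at least `d` vertices -/
theorem VSP : Stmt_VSP.{u} := by
  intro V _ k G d x Y K0 E A F0 W cw p C Z h
  have hx1 := h.x1
  have hxd : 1000000000000000 * x ≤ d := by simpa using h.xd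
  have hbig := h.big
  have hupp := h.upp
  have hW2 := h.W2
  have hcwc := h.cwc
  have : Nonempty (Fin k) := by
    have h1 : 0 < K0.card := by rw [h.K0c]; omega
    obtain ⟨b, _⟩ := card_pos.mp h1
    exact ⟨b⟩
  obtain ⟨V1, hV1⟩ : ∃ V1 : Finset V, V1 = Y \ W := ⟨_, rfl⟩
  have hV1c : V1.card + W.card = Y.card := by
    rw [hV1]; exact card_sdiff_add_card_eq_card h.WY
  have hm : ∀ v, v ∈ V1 ↔ v ∈ Y ∧ v ∉ W := fun v => by rw [hV1, mem_sdiff]
  have hcwK : cw ⊆ K0 := by
    intro b hb
    obtain ⟨u, hu, hbu⟩ := h.cwF b hb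
    exact h.FK u hu hbu
  obtain ⟨K1, hK1⟩ : ∃ K1 : Finset (Fin k), K1 = K0 \ cw := ⟨_, rfl⟩
  have hK1c : K1.card + cw.card = d + 2 := by
    rw [hK1, card_sdiff_add_card_eq_card hcwK, h.K0c]
  obtain ⟨Hv, hHv⟩ : ∃ Hv : Finset (Fin k), Hv = K1.filter (fun b =>
    Y.card < 4 * (V1.filter (fun v => b ∈ A v)).card) := ⟨_, rfl⟩
  obtain ⟨P, f, Hu, hP, hHuHv, hu1, hu2, h19, hHnu⟩ := cases h V1 hV1 Hv (by rw [hHv, hK1])
  have hHvK : Hv ⊆ K1 := by rw [hHv]; exact filter_subset _ _
  have hPV : P.card ≤ V1.card := card_le_card hP.sub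
  -- number of colours before the choice
  obtain ⟨n0, hn0⟩ : ∃ n0 : Fin k → ℕ, ∀ b, n0 b = (V1.filter (fun v => b ∉ E v)).card +
      (W.filter (fun v => b ∉ F0 v)).card := ⟨_, fun _ => rfl⟩
  -- the unused colours
  obtain ⟨U0, hU1, hU2, hU3, hU4⟩ : ∃ U0 : Finset (Fin k), Hu ⊆ U0 ∧ U0 ⊆ K1 ∧
      U0.card + V1.card = K1.card + P.card ∧ (Y.card = d → (∃ b ∈ U0, ¬ Odd (n0 b)) ∨
        ∀ b ∈ K1, b ∉ Hu → Odd (n0 b)) := by
    by_cases hex : Y.card = d ∧ ∃ b ∈ K1, b ∉ Hu ∧ ¬ Odd (n0 b)
    · obtain ⟨hYd, b, hb, hbH, hbo⟩ := hex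
      have h1 := hu2 hYd
      have h2 : (insert b Hu).card ≤ K1.card + P.card - V1.card := by
        rw [card_insert_of_notMem hbH]; omega
      obtain ⟨U0, h3, h4, h5⟩ := exists_subsuperset_card_eq
        (insert_subset hb (hHuHv.trans hHvK)) h2 (by omega)
      exact ⟨U0, (subset_insert _ _).trans h3, h4, by omega,
        fun _ => Or.inl ⟨b, h3 (mem_insert_self _ _), hbo⟩⟩
    · obtain ⟨U0, h3, h4, h5⟩ := exists_subsuperset_card_eq (hHuHv.trans hHvK)
        (n := K1.card + P.card - V1.card) (by omega) (by omega)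
      refine ⟨U0, h3, h4, by omega, fun hYd => Or.inr fun b hb hbH => ?_⟩
      by_contra hbo
      exact hex ⟨hYd, b, hb, hbH, hbo⟩
  obtain ⟨K, hK⟩ : ∃ K : Finset (Fin k), K = K1 \ U0 := ⟨_, rfl⟩
  have hKc : K.card + U0.card = K1.card := by
    rw [hK]; exact card_sdiff_add_card_eq_card hU2
  -- one third of the vertices
  have hth : ∀ j, 3 * (Y.filter (fun v => p v = j)).card ≤ Y.card + 3 * x := by
    intro j
    have h1 := (abs_le.mp (h.pc j)).2
    have h2 : (3 : ℝ) * ((Y.filter (fun v => p v = j)).card : ℝ) ≤ Y.card + 3 * x := by linarith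
    exact_mod_cast h2
  have hBc : ∀ v ∈ V1, (E v ∪ A v).card ≤ 2 * x := by
    intro v hv
    have hv' := (hm v).mp hv
    have h1 := card_union_le (E v) (A v)
    have h2 := h.Ex v hv'.1 hv'.2
    have h3 := h.AE v hv'.1 hv'.2
    omega
  obtain ⟨c, hc1, hc2, hc3, hc4, hc5⟩ := vcore G V1 K Hv (fun v => E v ∪ A v)
    (fun v => C (p v)) P f (3 * Y.card / 8) hP (by omega)
    (by
      intro v hv
      have h1 := card_union_le (E v ∪ A v) (C (p v))
      have h2 := hBc v hv
      have h3 := h.Cc (p v)
      have h4 := hth (p v)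
      show ((E v ∪ A v) ∪ C (p v)).card ≤ 3 * Y.card / 8
      omega)
    (by
      intro v hv
      have h2 := hBc v hv
      show 2 * (E v ∪ A v).card ≤ 3 * Y.card / 8
      omega)
    (by
      intro b hb hbH
      have hbK1 : b ∈ K1 := by rw [hK] at hb; exact (mem_sdiff.mp hb).1
      have h1 : 4 * (V1.filter (fun v => b ∈ A v)).card ≤ Y.card := by
        by_contra h2
        apply hbH
        rw [hHv, mem_filter]
        exact ⟨hbK1, by omega⟩
      have h2 : 3 * (Y.filter (fun v => b ∈ C (p v))).card ≤ Y.card + 3 * x := by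
        rcases (Y.filter (fun v => b ∈ C (p v))).eq_empty_or_nonempty with h3 | ⟨v0, hv0⟩
        · rw [h3, card_empty]; omega
        · refine le_trans (Nat.mul_le_mul_left 3 (card_le_card ?_)) (hth (p v0))
          intro v hv
          rw [mem_filter] at hv hv0 ⊢
          refine ⟨hv.1, ?_⟩
          by_contra hne
          exact disjoint_left.mp (h.Cd _ _ hne) hv.2 hv0.2
      have h3 : V1 ⊆ ((V1.filter (fun v => b ∉ (E v ∪ A v) ∪ C (p v))) ∪
          (V1.filter (fun v => b ∈ A v))) ∪
          (((Y.filter (fun v => v ∉ Z ∧ b ∈ E v)) ∪ (Y ∩ Z)) ∪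
            (Y.filter (fun v => b ∈ C (p v)))) := by
        intro v hv
        have hvY := ((hm v).mp hv).1
        simp only [mem_union, mem_filter, mem_inter, not_or]
        by_cases h4 : b ∈ A v
        · exact Or.inl (Or.inr ⟨hv, h4⟩)
        by_cases h5 : b ∈ C (p v)
        · exact Or.inr (Or.inr ⟨hvY, h5⟩)
        by_cases h6 : b ∈ E v
        · by_cases h7 : v ∈ Z
          · exact Or.inr (Or.inl (Or.inr ⟨hvY, h7⟩))
          · exact Or.inr (Or.inl (Or.inl ⟨hvY, h7, h6⟩))
        exact Or.inl (Or.inl ⟨hv, ⟨h6, h4⟩, h5⟩)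
      have h4 := (card_le_card h3).trans (card_union_le _ _)
      have h5 := card_union_le (V1.filter (fun v => b ∉ (E v ∪ A v) ∪ C (p v)))
        (V1.filter (fun v => b ∈ A v))
      have h6 := card_union_le ((Y.filter (fun v => v ∉ Z ∧ b ∈ E v)) ∪ (Y ∩ Z))
        (Y.filter (fun v => b ∈ C (p v)))
      have h7 := card_union_le (Y.filter (fun v => v ∉ Z ∧ b ∈ E v)) (Y ∩ Z)
      have h8 := h.ld b
      have h9 := h.ZY
      show 3 * Y.card / 8 + 2 * P.card ≤ (V1.filter (fun v => b ∉ (E v ∪ A v) ∪ C (p v))).card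
      omega)
    (by
      intro b hb hbH
      refine hHnu b hbH fun hbu => ?_
      rw [hK] at hb
      exact (mem_sdiff.mp hb).2 (hU1 hbu))
  have hKK1 : ∀ b ∈ K, b ∈ K0 ∧ b ∉ cw ∧ b ∉ U0 := by
    intro b hb
    rw [hK, mem_sdiff, hK1, mem_sdiff] at hb
    exact ⟨hb.1.1, hb.1.2, hb.2⟩
  have hcE : ∀ v ∈ V1, c v ∉ E v ∧ c v ∉ A v := by
    intro v hv
    have h1 := (hc1 v hv).2
    simp only [mem_union, not_or] at h1
    exact h1
  refine ⟨c, Z ∪ Y.filter (fun v => v ∉ W ∧ c v ∈ C (p v)), ?_, ?_, ?_, subset_union_left, ?_,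
    ?_, ?_⟩
  · intro v hv hvW
    have hv1 := (hm v).mpr ⟨hv, hvW⟩
    have h1 := hKK1 _ (hc1 v hv1).1
    exact ⟨h1.1, (hcE v hv1).1, (hcE v hv1).2, h1.2.1⟩
  · intro v hv w hw hvW hwW hvw
    exact hc2 v ((hm v).mpr ⟨hv, hvW⟩) w ((hm w).mpr ⟨hw, hwW⟩) hvw
  · intro b
    refine le_trans (card_le_card ?_) (hc3 b)
    intro v hv
    rw [mem_filter] at hv ⊢
    exact ⟨(hm v).mpr ⟨hv.1, hv.2.1⟩, hv.2.2⟩
  · have h1 : Y ∩ (Z ∪ Y.filter (fun v => v ∉ W ∧ c v ∈ C (p v))) ⊆
        (Y ∩ Z) ∪ V1.filter (fun v => c v ∈ C (p v)) := by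
      intro v hv
      rw [mem_inter, mem_union, mem_filter] at hv
      rw [mem_union, mem_inter, mem_filter]
      rcases hv.2 with h2 | h2
      · exact Or.inl ⟨hv.1, h2⟩
      · exact Or.inr ⟨(hm v).mpr ⟨hv.1, h2.2.1⟩, h2.2.2⟩
    have h2 := (card_le_card h1).trans (card_union_le _ _)
    have h3 := h.ZY
    omega
  · intro v hv hvZ hcv
    apply hvZ
    rw [mem_union, mem_filter]
    by_cases hvW : v ∈ W
    · exact Or.inl (h.WZ hvW)
    · exact Or.inr ⟨hv, hvW, hcv⟩
  · -- the parity
    obtain ⟨F, hF⟩ : ∃ F : V → Finset (Fin k), F = fun v =>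
      if v ∈ W then F0 v else insert (c v) (E v) := ⟨_, rfl⟩
    rw [← hF]
    have hFW : ∀ v ∈ W, F v = F0 v := fun v hv => by rw [hF]; simp only [if_pos hv]
    have hF1 : ∀ v, v ∉ W → F v = insert (c v) (E v) := fun v hv => by
      rw [hF]; simp only [if_neg hv]
    obtain ⟨cnt, hcnt⟩ : ∃ cnt : Fin k → ℕ, ∀ b, cnt b = (Y.filter (fun v => b ∉ F v)).card :=
      ⟨_, fun _ => rfl⟩
    have hFK : ∀ v ∈ Y, F v ⊆ K0 := by
      intro v hv
      by_cases hvW : v ∈ W
      · rw [hFW v hvW]; exact h.FK v hvW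
      · rw [hF1 v hvW]
        exact insert_subset (hKK1 _ (hc1 v ((hm v).mpr ⟨hv, hvW⟩)).1).1 (h.EK v hv hvW)
    have hFc : ∀ v ∈ Y, (K0 \ F v).card = (nb G v).card + 1 := by
      intro v hv
      have h1 := card_sdiff_add_card_eq_card (hFK v hv)
      rw [h.K0c] at h1
      by_cases hvW : v ∈ W
      · have h2 := h.Fd v hvW
        rw [hFW v hvW] at h1 ⊢
        omega
      · have h2 := h.deg v hv hvW
        have h3 : (F v).card = (E v).card + 1 := by
          rw [hF1 v hvW]
          exact card_insert_of_notMem (hcE v ((hm v).mpr ⟨hv, hvW⟩)).1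
        omega
    have hsum : ∑ b ∈ K0, cnt b = ∑ v ∈ Y, (nb G v).card + Y.card := by
      have h1 : ∀ b, cnt b = ∑ v ∈ Y, if b ∉ F v then 1 else 0 := by
        intro b
        rw [hcnt, card_filter]
      simp only [h1]
      rw [sum_comm]
      have h2 : ∀ v ∈ Y, (∑ b ∈ K0, if b ∉ F v then 1 else 0) = (nb G v).card + 1 := by
        intro v hv
        rw [← card_filter, ← hFc v hv]
        congr 1
        ext b
        rw [mem_filter, mem_sdiff]
      rw [sum_congr rfl h2, sum_add_distrib, sum_const, smul_eq_mul, mul_one]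
    have heven : Even (∑ v ∈ Y, (nb G v).card) := by
      have h1 := MP_db9399_lt.even_degsum_on G Y
      have h2 : ∀ v ∈ Y, ((nb G v).filter (fun w => w ∈ Y)).card = (nb G v).card := by
        intro v hv
        congr 1
        exact filter_true_of_mem (fun w hw => h.nbY v hv hw)
      rwa [sum_congr rfl h2] at h1
    have hodd : odd Y F K0 = K0.filter (fun b => Odd (cnt b)) := by
      rw [odd]
      apply filter_congr
      intro b _
      rw [hcnt]
      exact iff_of_eq (congrArg Odd (congrArg Finset.card (by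
        ext v
        simp only [Finset.mem_filter])))
    have hpar : Even (odd Y F K0).card ↔ Even Y.card := by
      rw [hodd, ← MP_db9399_lt.even_sum_iff K0 cnt, hsum, Nat.even_add]
      tauto
    have hle : (odd Y F K0).card ≤ d + 2 := by
      rw [hodd, ← h.K0c]
      exact card_filter_le _ _
    -- relation with the numbers before
    have hrel : ∀ b, cnt b + (V1.filter (fun v => c v = b)).card = n0 b := by
      intro b
      rw [hcnt, hn0]
      have h1 : Y.filter (fun v => b ∉ F v) = (V1.filter (fun v => b ∉ E v ∧ c v ≠ b)) ∪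
          (W.filter (fun v => b ∉ F0 v)) := by
        ext v
        rw [mem_union, mem_filter, mem_filter, mem_filter]
        by_cases hvW : v ∈ W
        · rw [hFW v hvW]
          constructor
          · exact fun h2 => Or.inr ⟨hvW, h2.2⟩
          · rintro (h2 | h2)
            · exact absurd hvW ((hm v).mp h2.1).2
            · exact ⟨h.WY hvW, h2.2⟩
        · rw [hF1 v hvW, mem_insert, not_or]
          constructor
          · exact fun h2 => Or.inl ⟨(hm v).mpr ⟨h2.1, hvW⟩, h2.2.2, fun h3 => h2.2.1 h3.symm⟩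
          · rintro (h2 | h2)
            · exact ⟨((hm v).mp h2.1).1, fun h3 => h2.2.2 h3.symm, h2.2.1⟩
            · exact absurd h2.1 hvW
      have h2 : Disjoint (V1.filter (fun v => b ∉ E v ∧ c v ≠ b))
          (W.filter (fun v => b ∉ F0 v)) := by
        rw [disjoint_left]
        intro v hv hv'
        exact ((hm v).mp (mem_filter.mp hv).1).2 (mem_filter.mp hv').1
      have h3 : V1.filter (fun v => b ∉ E v) = (V1.filter (fun v => b ∉ E v ∧ c v ≠ b)) ∪
          (V1.filter (fun v => c v = b)) := by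
        ext v
        simp only [mem_union, mem_filter]
        constructor
        · intro h4
          by_cases h5 : c v = b
          · exact Or.inr ⟨h4.1, h5⟩
          · exact Or.inl ⟨h4.1, h4.2, h5⟩
        · rintro (h4 | h4)
          · exact ⟨h4.1, h4.2.1⟩
          · exact ⟨h4.1, h4.2 ▸ (hcE v h4.1).1⟩
      have h4 : Disjoint (V1.filter (fun v => b ∉ E v ∧ c v ≠ b))
          (V1.filter (fun v => c v = b)) := by
        rw [disjoint_left]
        intro v hv hv'
        exact (mem_filter.mp hv).2.2 (mem_filter.mp hv').2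
      rw [h1, h3, card_union_of_disjoint h2, card_union_of_disjoint h4]
      omega
    -- an even colour if `|Y| = d`
    have hright : Y.card = d → (odd Y F K0).card ≤ d + 1 := by
      intro hYd
      have h1 : ∃ b ∈ K0, ¬ Odd (cnt b) := by
        rcases hU4 hYd with ⟨b, hb, hbo⟩ | hall
        · refine ⟨b, ?_, ?_⟩
          · have h2 := hU2 hb
            rw [hK1] at h2
            exact (mem_sdiff.mp h2).1
          · have h2 : (V1.filter (fun v => c v = b)).card = 0 := by
              rw [card_eq_zero, filter_eq_empty_iff]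
              intro v hv h3
              exact (hKK1 _ (hc1 v hv).1).2.2 (h3 ▸ hb)
            have h3 := hrel b
            rw [h2, add_zero] at h3
            rwa [h3]
        · have h2 : ∃ b ∈ K, b ∉ P.image c := by
            by_contra hcon
            push Not at hcon
            have h3 : K ⊆ P.image c := fun b hb => hcon b hb
            have h4 := card_le_card h3
            have h5 : (P.image c).card ≤ P.card := card_image_le
            omega
          obtain ⟨b, hb, hbP⟩ := h2
          have h3 := hc4 b hb hbP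
          have h4 := hrel b
          have h5 := hKK1 b hb
          have h6 : b ∈ K1 := by rw [hK] at hb; exact (mem_sdiff.mp hb).1
          have h7 := hall b h6 (fun h8 => h5.2.2 (hU1 h8))
          refine ⟨b, h5.1, ?_⟩
          rw [← h4, h3] at h7
          rw [Nat.odd_iff] at h7 ⊢
          omega
      obtain ⟨b, hb, hbo⟩ := h1
      rw [hodd]
      have h2 : K0.filter (fun b => Odd (cnt b)) ⊆ K0.erase b := by
        intro b' hb'
        rw [mem_filter] at hb'
        rw [mem_erase]
        refine ⟨fun h3 => hbo (h3 ▸ hb'.2), hb'.1⟩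
      have h3 := card_le_card h2
      rw [card_erase_of_mem hb, h.K0c] at h3
      omega
    by_cases h1 : Y.card = d
    · have h2 := hright h1
      by_contra hcon
      have h3 : (odd Y F K0).card = Y.card + 1 := by omega
      rw [h3, Nat.even_add_one] at hpar
      tauto
    · by_cases h2 : Y.card = d + 1
      · by_contra hcon
        have h3 : (odd Y F K0).card = Y.card + 1 := by omega
        rw [h3, Nat.even_add_one] at hpar
        tauto
      · omega

end Pool.Agent.Work.MP_db9399_sl.helper94
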