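import Pool.Agent.Work.MP_db9399_lt.Interface
import Pool.Agent.Work.MP_db9399_nc.Base

/-!
# MP_db9399, frame of exception (iii): the vertex colours of one spot and the parity condition

`F v` = colours of the outer edges at `v`, `A v` = all colours which are forbidden at `v`
(`F v` and the vertex colours of the outer neighbours), `Hv` = colours forbidden at many vertices,
`Hu` = the colours of `Hv` which must not be used.
-/

set_option autoImplicit false

namespace Pool.Agent.Work.MP_db9399_sl.helper94

open Finset Classical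
open Pool.Agent.Work.MP_db9399_nc (nn mem_nn)
open Pool.Agent.Work.MP_db9399_lt (us wr)

universe u

/-- disjoint nonadjacent pairs `(v, f v)`, `v ∈ P` -/
structure Prs {V : Type u} (G : SimpleGraph V) (P : Finset V) (f : V → V) : Prop where
  out : ∀ v ∈ P, f v ∉ P
  inj : Set.InjOn f (P : Set V)
  na : ∀ v ∈ P, ¬ G.Adj v (f v)

/-- many missing edges give many disjoint nonadjacent pairs -/
theorem exists_prs {V : Type u} [Fintype V] (G : SimpleGraph V) (x : ℕ) (hx1 : 1 ≤ x)
    (hx : ∀ v, (nn G univ v).card ≤ x) :
    ∀ p : ℕ, 4 * x * p ≤ ∑ v, (nn G univ v).card →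
      ∃ (P : Finset V) (f : V → V), Prs G P f ∧ P.card = p := by
  intro p
  induction p with
  | zero => exact fun _ => ⟨∅, id, ⟨by simp, by simp, by simp⟩, rfl⟩
  | succ p ih =>
    intro h
    obtain ⟨P, f, hP, hc⟩ := ih (by nlinarith)
    set U : Finset V := P ∪ P.image f with hU
    have hUc : U.card ≤ 2 * p := by
      rw [hU]
      have h1 := card_union_le P (P.image f)
      have h2 : (P.image f).card ≤ P.card := card_image_le
      omega
    -- a nonadjacent pair outside `U`
    have hex : ∃ v w : V, v ∉ U ∧ w ∉ U ∧ w ≠ v ∧ ¬ G.Adj v w := by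
      by_contra hcon
      push Not at hcon
      have e1 : ∀ v, v ∉ U → nn G univ v = (nn G univ v) ∩ U := by
        intro v hv
        ext w
        rw [mem_inter]
        constructor
        · intro hw
          refine ⟨hw, ?_⟩
          by_contra hwU
          rw [mem_nn] at hw
          exact hw.2.2 (hcon v w hv hwU hw.2.1)
        · exact fun hw => hw.1
      have e2 : ∑ v, (nn G univ v).card ≤ ∑ v ∈ U, (nn G univ v).card +
          ∑ v, ((nn G univ v) ∩ U).card := by
        rw [← sum_filter_add_sum_filter_not univ (fun v => v ∈ U)]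
        apply Nat.add_le_add
        · rw [filter_mem_eq_inter, univ_inter]
        · calc ∑ v ∈ univ.filter (fun v => ¬ v ∈ U), (nn G univ v).card
              = ∑ v ∈ univ.filter (fun v => ¬ v ∈ U), ((nn G univ v) ∩ U).card := by
                apply sum_congr rfl
                intro v hv
                rw [← e1 v (mem_filter.mp hv).2]
            _ ≤ _ := sum_le_sum_of_subset (filter_subset _ _)
      have e3 : ∑ v, ((nn G univ v) ∩ U).card = ∑ v ∈ U, (nn G univ v).card := by
        have h1 : ∀ v : V, ((nn G univ v) ∩ U).card =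
            ∑ w ∈ U, if w ∈ nn G univ v then 1 else 0 := by
          intro v
          rw [inter_comm, ← filter_mem_eq_inter, card_filter]
        have h2 : ∀ w : V, (nn G univ w).card = ∑ v : V, if w ∈ nn G univ v then 1 else 0 := by
          intro w
          rw [← card_filter]
          congr 1
          ext v
          rw [mem_filter, mem_nn, mem_nn]
          constructor
          · rintro ⟨_, h3, h4⟩
            exact ⟨mem_univ _, mem_univ _, fun h => h3 h.symm, fun h => h4 h.symm⟩
          · rintro ⟨_, _, h3, h4⟩
            exact ⟨mem_univ _, fun h => h3 h.symm, fun h => h4 h.symm⟩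
        simp only [h1, h2]
        rw [sum_comm]
      have e4 : ∑ v ∈ U, (nn G univ v).card ≤ 2 * p * x := by
        calc ∑ v ∈ U, (nn G univ v).card ≤ ∑ _v ∈ U, x := sum_le_sum fun v _ => hx v
          _ = U.card * x := by rw [sum_const, smul_eq_mul]
          _ ≤ _ := Nat.mul_le_mul_right _ hUc
      rw [e3] at e2
      nlinarith
    obtain ⟨v, w, hv, hw, hwv, hna⟩ := hex
    have hvP : v ∉ P := fun h => hv (mem_union_left _ h)
    have hwP : w ∉ P := fun h => hw (mem_union_left _ h)
    have hvf : ∀ z ∈ P, f z ≠ v := fun z hz h => hv (mem_union_right _ (h ▸ mem_image_of_mem f hz))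
    have hwf : ∀ z ∈ P, f z ≠ w := fun z hz h => hw (mem_union_right _ (h ▸ mem_image_of_mem f hz))
    have hne : ∀ z ∈ P, z ≠ v := fun z hz h => hvP (h ▸ hz)
    refine ⟨insert v P, Function.update f v w, ⟨?_, ?_, ?_⟩, ?_⟩
    · intro z hz
      rcases mem_insert.mp hz with rfl | hz
      · rw [Function.update_self, mem_insert]
        rintro (h | h)
        · exact hwv h
        · exact hwP h
      · rw [Function.update_of_ne (hne z hz), mem_insert]
        rintro (h | h)
        · exact hvf z hz h
        · exact hP.out z hz h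
    · intro z hz z' hz' h
      rw [mem_coe, mem_insert] at hz hz'
      rcases hz with hz | hz
      · rcases hz' with hz' | hz'
        · rw [hz, hz']
        · rw [hz, Function.update_self, Function.update_of_ne (hne z' hz')] at h
          exact absurd h.symm (hwf z' hz')
      · rcases hz' with hz' | hz'
        · rw [hz', Function.update_self, Function.update_of_ne (hne z hz)] at h
          exact absurd h (hwf z hz)
        · rw [Function.update_of_ne (hne z hz), Function.update_of_ne (hne z' hz')] at h
          exact hP.inj hz hz' h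
    · intro z hz
      rcases mem_insert.mp hz with rfl | hz
      · rwa [Function.update_self]
      · rw [Function.update_of_ne (hne z hz)]
        exact hP.na z hz
    · rw [card_insert_of_notMem hvP, hc]

/-- Hall's theorem with a few heavy colours -/
theorem hallH {α : Type u} (N : Finset α) (K Hv : Finset ℕ) (ok : α → ℕ → Prop) (a : ℕ)
    (hc : N.card = K.card) (h1 : ∀ v ∈ N, (K.filter (fun b => ¬ ok v b)).card ≤ a)
    (h2 : ∀ b ∈ K, b ∉ Hv → a ≤ (N.filter (fun v => ok v b)).card)
    (h3 : ∀ b ∈ K, b ∈ Hv → Hv.card ≤ (N.filter (fun v => ok v b)).card) :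
    ∃ g : α → ℕ, (∀ v ∈ N, g v ∈ K ∧ ok v (g v)) ∧ Set.InjOn g (N : Set α) := by
  have hall : ∀ S : Finset {b // b ∈ K},
      S.card ≤ (S.biUnion (fun b => N.filter (fun v => ok v b.val))).card := by
    intro S
    have hSK : (S.image (fun b : {b // b ∈ K} => b.val)).card = S.card :=
      card_image_of_injective _ Subtype.val_injective
    have hsubK : S.image (fun b : {b // b ∈ K} => b.val) ⊆ K := by
      intro b hb
      obtain ⟨b', _, rfl⟩ := mem_image.mp hb
      exact b'.2
    by_cases hH : ∀ b ∈ S, (b : {b // b ∈ K}).val ∈ Hv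
    · rcases S.eq_empty_or_nonempty with hS | ⟨b0, hb0⟩
      · subst hS; simp
      · have e1 : (N.filter (fun v => ok v b0.val)).card ≤
            (S.biUnion (fun b => N.filter (fun v => ok v b.val))).card :=
          card_le_card (subset_biUnion_of_mem
            (fun b : {b // b ∈ K} => N.filter (fun v => ok v b.val)) hb0)
        have e2 := h3 b0.val b0.2 (hH b0 hb0)
        have e3 : S.card ≤ Hv.card := by
          rw [← hSK]
          apply card_le_card
          intro b hb
          obtain ⟨b', hb', rfl⟩ := mem_image.mp hb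
          exact hH b' hb'
        omega
    · push Not at hH
      obtain ⟨b0, hb0, hb0H⟩ := hH
      by_cases hbig : S.card ≤ a
      · have e1 : (N.filter (fun v => ok v b0.val)).card ≤
            (S.biUnion (fun b => N.filter (fun v => ok v b.val))).card :=
          card_le_card (subset_biUnion_of_mem
            (fun b : {b // b ∈ K} => N.filter (fun v => ok v b.val)) hb0)
        have e2 := h2 b0.val b0.2 hb0H
        omega
      · have e1 : N ⊆ S.biUnion (fun b => N.filter (fun v => ok v b.val)) := by
          intro v hv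
          by_contra hcon
          have e2 : S.image (fun b : {b // b ∈ K} => b.val) ⊆ K.filter (fun b => ¬ ok v b) := by
            intro b hb
            obtain ⟨b', hb', rfl⟩ := mem_image.mp hb
            rw [mem_filter]
            refine ⟨b'.2, fun h => hcon ?_⟩
            rw [mem_biUnion]
            exact ⟨b', hb', mem_filter.mpr ⟨hv, h⟩⟩
          have e3 := card_le_card e2
          rw [hSK] at e3
          have e4 := h1 v hv
          omega
        have e2 := card_le_card e1
        have e3 : S.card ≤ K.card := by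
          rw [← hSK]
          exact card_le_card hsubK
        omega
  obtain ⟨φ, hφ1, hφ2⟩ := (Finset.all_card_le_biUnion_card_iff_exists_injective _).mp hall
  have himg : (univ : Finset {b // b ∈ K}).image φ = N := by
    apply eq_of_subset_of_card_le
    · intro v hv
      obtain ⟨b, _, rfl⟩ := mem_image.mp hv
      exact (mem_filter.mp (hφ2 b)).1
    · rw [card_image_of_injective _ hφ1, card_univ, Fintype.card_coe, hc]
  have hsur : ∀ v ∈ N, ∃ b : {b // b ∈ K}, φ b = v := by
    intro v hv
    rw [← himg] at hv
    obtain ⟨b, _, hb⟩ := mem_image.mp hv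
    exact ⟨b, hb⟩
  refine ⟨fun v => if h : v ∈ N then ((hsur v h).choose).val else 0, ?_, ?_⟩
  · intro v hv
    simp only [dif_pos hv]
    refine ⟨((hsur v hv).choose).2, ?_⟩
    have h4 := (mem_filter.mp (hφ2 ((hsur v hv).choose))).2
    rwa [(hsur v hv).choose_spec] at h4
  · intro v hv w hw h
    rw [mem_coe] at hv hw
    simp only [dif_pos hv, dif_pos hw] at h
    have h4 := Subtype.ext h
    rw [← (hsur v hv).choose_spec, ← (hsur w hw).choose_spec, h4]

/-- **The vertex colours of a spot.** -/
theorem vsp {V : Type u} [Fintype V] (G : SimpleGraph V) (d a : ℕ) (F A : V → Finset ℕ)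
    (Hv Hu : Finset ℕ) (P : Finset V) (f : V → V) (hP : Prs G P f) (hFA : ∀ v, F v ⊆ A v)
    (hA : ∀ v, (A v).card ≤ a) (ha : 16 * a ≤ Fintype.card V) (hHu : Hu ⊆ Hv)
    (hHr : Hv ⊆ range (d + 2)) (hu : Hu.card + Fintype.card V ≤ d + 2 + P.card)
    (hup : d + 2 + 2 * P.card ≤ 2 * Fintype.card V) (hp : 8 * P.card ≤ Fintype.card V)
    (hN : ∀ b < d + 2, b ∉ Hv → 4 * (univ.filter (fun v => b ∈ A v)).card ≤ Fintype.card V)
    (hH : ∀ b ∈ Hv, b ∉ Hu → Hv.card + 2 * P.card ≤ (univ.filter (fun v => b ∉ A v)).card)
    (hpar : (Hu.filter (fun b => Odd (univ \ us F b).card)).card ≤ P.card ∨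
      2 * (Hu.filter (fun b => Odd (univ \ us F b).card)).card ≤
        ((range (d + 2)).filter (fun b => Odd (univ \ us F b).card)).card) :
    ∃ c : V → ℕ, (∀ v, c v < d + 2) ∧ (∀ v, c v ∉ A v) ∧ (∀ v w, G.Adj v w → c v ≠ c w) ∧
      (wr (fun v => insert (c v) (F v)) (range (d + 2))).card ≤ Fintype.card V := by
  set m := Fintype.card V with hmdef
  set p := P.card with hpdef
  set O := (range (d + 2)).filter (fun b => Odd (univ \ us F b).card) with hO
  set E := (range (d + 2)).filter (fun b => ¬ Odd (univ \ us F b).card) with hE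
  have hOE : O.card + E.card = d + 2 := by
    have := card_filter_add_card_filter_not (s := range (d + 2))
      (fun b => Odd (univ \ us F b).card)
    rw [card_range] at this
    exact this
  have hOEd : Disjoint O E := disjoint_filter_filter_not _ _ _
  have hOEu : O ∪ E = range (d + 2) := filter_union_filter_not_eq _ _
  have hHuR : Hu ⊆ range (d + 2) := hHu.trans hHr
  have hHuO : Hu.filter (fun b => Odd (univ \ us F b).card) = Hu ∩ O := by
    ext b
    simp only [hO, mem_filter, mem_inter]
    constructor
    · exact fun h => ⟨h.1, hHuR h.1, h.2⟩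
    · exact fun h => ⟨h.1, h.2.2⟩
  rw [hHuO] at hpar
  -- the unused colours
  have hU : ∃ U1 : Finset ℕ, U1 ⊆ range (d + 2) ∧ Disjoint Hu U1 ∧
      U1.card + Hu.card + m = d + 2 + p ∧ (U1 ⊆ E ∨ E ⊆ Hu ∪ U1) := by
    by_cases h : d + 2 + p ≤ (E \ Hu).card + Hu.card + m
    · obtain ⟨U1, h1, h2⟩ := exists_subset_card_eq
        (s := E \ Hu) (n := d + 2 + p - m - Hu.card) (by omega)
      refine ⟨U1, ?_, ?_, by omega, Or.inl (h1.trans sdiff_subset)⟩
      · exact (h1.trans sdiff_subset).trans (filter_subset _ _)
      · exact (disjoint_sdiff).mono_right h1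
    · have h0 : E \ Hu ⊆ range (d + 2) \ Hu := sdiff_subset_sdiff (filter_subset _ _) subset_rfl
      have h1 : (range (d + 2) \ Hu).card = d + 2 - Hu.card := by
        rw [card_sdiff_of_subset hHuR, card_range]
      obtain ⟨U1, h2, h3, h4⟩ := exists_subsuperset_card_eq h0
        (n := d + 2 + p - m - Hu.card) (by omega) (by omega)
      refine ⟨U1, h3.trans sdiff_subset, (disjoint_sdiff).mono_right h3, by omega, Or.inr ?_⟩
      intro b hb
      rw [mem_union]
      by_cases hb' : b ∈ Hu
      · exact Or.inl hb'
      · exact Or.inr (h2 (mem_sdiff.mpr ⟨hb, hb'⟩))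
  obtain ⟨U1, hU1R, hU1d, hU1c, hU1⟩ := hU
  set U0 := Hu ∪ U1 with hU0
  have hU0c : U0.card + m = d + 2 + p := by
    rw [hU0, card_union_of_disjoint hU1d]
    omega
  have hU0R : U0 ⊆ range (d + 2) := union_subset hHuR hU1R
  set K := range (d + 2) \ U0 with hK
  have hKc : K.card + U0.card = d + 2 := by
    have := card_sdiff_add_card_eq_card hU0R
    rwa [card_range] at this
  set I := univ \ P with hI
  have hIc : I.card + p = m := by
    have := card_sdiff_add_card_eq_card (subset_univ P)
    rwa [card_univ] at this
  -- the partner of an item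
  set pr : V → Finset ℕ := fun v => (P.filter (fun w => f w = v)).biUnion A with hpr
  have hpr1 : ∀ v, (P.filter (fun w => f w = v)).card ≤ 1 := by
    intro v
    rw [card_le_one]
    intro w hw w' hw'
    rw [mem_filter] at hw hw'
    exact hP.inj hw.1 hw'.1 (hw.2.trans hw'.2.symm)
  have hprc : ∀ v, (pr v).card ≤ a := by
    intro v
    calc (pr v).card ≤ ∑ w ∈ P.filter (fun w => f w = v), (A w).card := card_biUnion_le
      _ ≤ (P.filter (fun w => f w = v)).card * a := by
          rw [← smul_eq_mul]
          exact sum_le_card_nsmul _ _ _ fun w _ => hA w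
      _ ≤ 1 * a := Nat.mul_le_mul_right _ (hpr1 v)
      _ = a := one_mul a
  obtain ⟨ok, hok⟩ : ∃ ok : V → ℕ → Prop, ∀ v b, ok v b ↔ b ∉ A v ∪ pr v :=
    ⟨_, fun _ _ => Iff.rfl⟩
  -- number of items where the colour `b` is allowed
  have hitem : ∀ b, (univ.filter (fun v => b ∉ A v)).card ≤
      (I.filter (fun v => ok v b)).card + 2 * p := by
    intro b
    have h1 : univ.filter (fun v => b ∉ A v) ⊆
        I.filter (fun v => ok v b) ∪ (P ∪ P.image f) := by
      intro v hv
      rw [mem_union]
      by_cases h2 : v ∈ P ∪ P.image f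
      · exact Or.inr h2
      · left
        rw [mem_union, not_or] at h2
        rw [mem_filter, hok, hI, mem_sdiff, mem_union, not_or]
        refine ⟨⟨mem_univ _, h2.1⟩, (mem_filter.mp hv).2, ?_⟩
        rw [hpr]
        simp only [mem_biUnion, mem_filter, not_exists, not_and]
        intro w hw
        exact absurd (hw.2 ▸ mem_image_of_mem f hw.1) h2.2
    have h2 := card_le_card h1
    have h3 := card_union_le (I.filter (fun v => ok v b)) (P ∪ P.image f)
    have h4 := card_union_le P (P.image f)
    have h5 : (P.image f).card ≤ P.card := card_image_le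
    omega
  have hcompl : ∀ b, (univ.filter (fun v => b ∈ A v)).card +
      (univ.filter (fun v => b ∉ A v)).card = m := by
    intro b
    have := card_filter_add_card_filter_not (s := (univ : Finset V)) (fun v => b ∈ A v)
    rwa [card_univ] at this
  obtain ⟨g, hg1, hg2⟩ := hallH I K Hv ok (2 * a) (by omega)
    (by
      intro v _
      refine (card_le_card (fun b hb => ?_ : _ ⊆ A v ∪ pr v)).trans ?_
      · have h1 := (mem_filter.mp hb).2
        rw [hok] at h1
        exact not_not.mp h1
      have h3 := card_union_le (A v) (pr v)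
      have h4 := hA v
      have h5 := hprc v
      omega)
    (by
      intro b hb hbH
      have h1 := hN b (mem_range.mp (mem_sdiff.mp hb).1) hbH
      have h2 := hcompl b
      have h3 := hitem b
      omega)
    (by
      intro b hb hbH
      have h1 := hH b hbH (fun h => (mem_sdiff.mp hb).2 (mem_union_left _ h))
      have h3 := hitem b
      omega)
  have hfI : ∀ v ∈ P, f v ∈ I := fun v hv => mem_sdiff.mpr ⟨mem_univ _, hP.out v hv⟩
  set c : V → ℕ := fun v => if v ∈ P then g (f v) else g v with hc
  have hcP : ∀ v ∈ P, c v = g (f v) := fun v hv => by rw [hc]; simp only [if_pos hv]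
  have hcI : ∀ v, v ∉ P → c v = g v := fun v hv => by rw [hc]; simp only [if_neg hv]
  have hvI : ∀ v, v ∉ P → v ∈ I := fun v hv => mem_sdiff.mpr ⟨mem_univ _, hv⟩
  have hcK : ∀ v, c v ∈ K := by
    intro v
    by_cases hv : v ∈ P
    · rw [hcP v hv]; exact (hg1 _ (hfI v hv)).1
    · rw [hcI v hv]; exact (hg1 _ (hvI v hv)).1
  have hcA : ∀ v, c v ∉ A v := by
    intro v
    by_cases hv : v ∈ P
    · rw [hcP v hv]
      intro h
      have h1 := (hg1 _ (hfI v hv)).2
      rw [hok, mem_union, not_or] at h1
      apply h1.2
      rw [hpr]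
      simp only [mem_biUnion, mem_filter]
      exact ⟨v, ⟨hv, rfl⟩, h⟩
    · rw [hcI v hv]
      have h1 := (hg1 _ (hvI v hv)).2
      rw [hok, mem_union, not_or] at h1
      exact h1.1
  refine ⟨c, fun v => mem_range.mp (mem_sdiff.mp (hcK v)).1, hcA, ?_, ?_⟩
  · intro v w hvw h
    by_cases hv : v ∈ P <;> by_cases hw : w ∈ P
    · rw [hcP v hv, hcP w hw] at h
      have h1 := hg2 (hfI v hv) (hfI w hw) h
      exact hvw.ne (hP.inj hv hw h1)
    · rw [hcP v hv, hcI w hw] at h
      have h1 := hg2 (hfI v hv) (hvI w hw) h
      exact hP.na v hv (h1 ▸ hvw)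
    · rw [hcI v hv, hcP w hw] at h
      have h1 := hg2 (hvI v hv) (hfI w hw) h
      exact hP.na w hw (h1 ▸ hvw.symm)
    · rw [hcI v hv, hcI w hw] at h
      exact hvw.ne (hg2 (hvI v hv) (hvI w hw) h)
  -- the parity
  set PC := P.image c with hPC
  have hPCc : PC.card ≤ p := card_image_le
  have hPCK : PC ⊆ K := by
    intro b hb
    obtain ⟨v, _, rfl⟩ := mem_image.mp hb
    exact hcK v
  have hnum : ∀ b, (univ \ us F b).card =
      (univ.filter (fun v => c v = b)).card +
        (univ \ us (fun v => insert (c v) (F v)) b).card := by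
    intro b
    have h1 : univ \ us F b = (univ.filter (fun v => c v = b)) ∪
        (univ \ us (fun v => insert (c v) (F v)) b) := by
      ext v
      simp only [us, mem_sdiff, mem_univ, true_and, mem_filter, mem_union, mem_insert, not_or]
      constructor
      · intro h
        by_cases hcb : c v = b
        · exact Or.inl hcb
        · exact Or.inr ⟨fun h' => hcb h'.symm, h⟩
      · rintro (h | h)
        · intro hb
          exact hcA v (h ▸ hFA v hb)
        · exact h.2
    rw [h1, card_union_of_disjoint]
    rw [disjoint_left]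
    intro v hv hv'
    simp only [us, mem_sdiff, mem_univ, true_and, mem_filter, mem_insert, not_or] at hv hv'
    exact hv'.1 hv.symm
  -- colours in `U0` are not used
  have hn0 : ∀ b ∈ U0, (univ.filter (fun v => c v = b)).card = 0 := by
    intro b hb
    rw [card_eq_zero, filter_eq_empty_iff]
    intro v _ h
    exact (mem_sdiff.mp (hcK v)).2 (h ▸ hb)
  -- every item colour is used by some item
  have hgimg : I.image g = K := by
    apply eq_of_subset_of_card_le
    · intro b hb
      obtain ⟨v, hv, rfl⟩ := mem_image.mp hb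
      exact (hg1 v hv).1
    · rw [card_image_of_injOn hg2]
      omega
  -- colours outside `U0` and `PC` are used exactly once
  have hn1 : ∀ b ∈ K, b ∉ PC → (univ.filter (fun v => c v = b)).card = 1 := by
    intro b hb hbP
    rw [← hgimg] at hb
    obtain ⟨v, hv, hvb⟩ := mem_image.mp hb
    have hvP : v ∉ P := (mem_sdiff.mp hv).2
    rw [card_eq_one]
    refine ⟨v, ?_⟩
    ext w
    rw [mem_filter, mem_singleton]
    constructor
    · rintro ⟨_, h⟩
      by_cases hw : w ∈ P
      · exact absurd (mem_image.mpr ⟨w, hw, h⟩) hbP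
      · rw [hcI w hw] at h
        exact hg2 (hvI w hw) hv (h.trans hvb.symm)
    · rintro rfl
      exact ⟨mem_univ _, by rw [hcI w hvP]; exact hvb⟩
  set W := wr (fun v => insert (c v) (F v)) (range (d + 2)) with hW
  have hWm : ∀ b ∈ W, b ∈ range (d + 2) ∧
      Odd (univ \ us (fun v => insert (c v) (F v)) b).card := by
    intro b hb
    rw [hW, wr, mem_filter] at hb
    exact hb
  -- odd colours in `W` are in `U0` or in `PC`
  have hWO : ∀ b ∈ W, b ∈ O → b ∈ U0 ∪ PC := by
    intro b hb hbO
    by_contra hcon
    rw [mem_union, not_or] at hcon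
    have hbR := (hWm b hb).1
    have h1 := hn1 b (mem_sdiff.mpr ⟨hbR, hcon.1⟩) hcon.2
    have h2 := hnum b
    have h3 := (hWm b hb).2
    have h4 := (mem_filter.mp hbO).2
    rw [h2, h1] at h4
    rw [Nat.odd_iff] at h3 h4
    omega
  -- even colours in `W` are not in `U0`
  have hWE : ∀ b ∈ W, b ∈ E → b ∉ U0 := by
    intro b hb hbE hbU
    have h1 := hn0 b hbU
    have h2 := hnum b
    have h3 := (hWm b hb).2
    have h4 := (mem_filter.mp hbE).2
    rw [h2, h1, zero_add] at h4
    exact h4 h3
  have hWsplit : W = (W ∩ O) ∪ (W ∩ E) := by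
    rw [← inter_union_distrib_left, hOEu]
    exact (inter_eq_left.mpr (fun b hb => (hWm b hb).1)).symm
  have hWcard : W.card ≤ (W ∩ O).card + (W ∩ E).card := by
    conv_lhs => rw [hWsplit]
    exact card_union_le _ _
  have hUPd : Disjoint U0 PC := by
    rw [disjoint_left]
    intro b hb hb'
    exact (mem_sdiff.mp (hPCK hb')).2 hb
  rcases hU1 with hU1 | hU1
  · -- `U1 ⊆ E`
    have e1 : W ∩ E ⊆ E \ U0 := fun b hb =>
      mem_sdiff.mpr ⟨(mem_inter.mp hb).2, hWE b (mem_inter.mp hb).1 (mem_inter.mp hb).2⟩
    have e2 : W ∩ O ⊆ (Hu ∩ O) ∪ (PC ∩ O) := by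
      intro b hb
      rw [mem_inter] at hb
      have h1 := hWO b hb.1 hb.2
      rw [mem_union, hU0, mem_union] at h1
      rw [mem_union, mem_inter, mem_inter]
      rcases h1 with (h1 | h1) | h1
      · exact Or.inl ⟨h1, hb.2⟩
      · exact absurd (hU1 h1) (disjoint_left.mp hOEd hb.2)
      · exact Or.inr ⟨h1, hb.2⟩
    have e3 : (E \ U0).card + (E ∩ Hu).card + U1.card = E.card := by
      have h1 : E \ U0 ∪ ((E ∩ Hu) ∪ U1) = E := by
        ext b
        simp only [hU0, mem_union, mem_sdiff, mem_inter]
        constructor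
        · rintro (h | h | h)
          · exact h.1
          · exact h.1
          · exact hU1 h
        · intro h
          by_cases h2 : b ∈ Hu
          · exact Or.inr (Or.inl ⟨h, h2⟩)
          · by_cases h3 : b ∈ U1
            · exact Or.inr (Or.inr h3)
            · exact Or.inl ⟨h, fun h4 => h4.elim h2 h3⟩
      have h2 : Disjoint (E ∩ Hu) U1 := hU1d.mono_left inter_subset_right
      have h3 : Disjoint (E \ U0) ((E ∩ Hu) ∪ U1) := by
        rw [disjoint_left]
        intro b hb hb'
        rw [mem_sdiff, hU0, mem_union, not_or] at hb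
        rw [mem_union, mem_inter] at hb'
        exact hb'.elim (fun h => hb.2.1 h.2) hb.2.2
      have h4 := card_union_of_disjoint h3
      rw [h1, card_union_of_disjoint h2] at h4
      omega
    have e4 : (Hu ∩ O).card + (E ∩ Hu).card = Hu.card := by
      have h1 : Hu = (Hu ∩ O) ∪ (E ∩ Hu) := by
        rw [inter_comm E Hu, ← inter_union_distrib_left, hOEu]
        exact (inter_eq_left.mpr hHuR).symm
      have h2 : Disjoint (Hu ∩ O) (E ∩ Hu) := hOEd.mono inter_subset_right inter_subset_left
      have h3 := card_union_of_disjoint h2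
      rw [← h1] at h3
      omega
    have e5 := card_le_card e1
    have e6 := (card_le_card e2).trans (card_union_le _ _)
    have e7 : (PC ∩ O).card ≤ PC.card := card_le_card inter_subset_left
    have e8 : (PC ∩ O).card + (Hu ∩ O).card ≤ O.card := by
      have h2 : Disjoint (PC ∩ O) (Hu ∩ O) := by
        refine Disjoint.mono inter_subset_left inter_subset_left ?_
        exact (hUPd.mono_left subset_union_left).symm
      rw [← card_union_of_disjoint h2]
      exact card_le_card (union_subset inter_subset_right inter_subset_right)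
    rcases hpar with hpar | hpar
    · omega
    · omega
  · -- `E ⊆ U0`
    have e1 : W ∩ E = ∅ := by
      rw [eq_empty_iff_forall_notMem]
      intro b hb
      rw [mem_inter] at hb
      exact hWE b hb.1 hb.2 (hU1 hb.2)
    have e2 : W ∩ O ⊆ U0 ∪ PC := fun b hb => hWO b (mem_inter.mp hb).1 (mem_inter.mp hb).2
    have e3 := (card_le_card e2).trans (card_union_le _ _)
    rw [e1, card_empty] at hWcard
    omega

end Pool.Agent.Work.MP_db9399_sl.helper94
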